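import Mathlib
import Pool.Agent.Helper26.HI.Defs

/-!
# HI, block HC4: elimination of `x` by the resultant, with a uniform bound of the degree
-/

set_option autoImplicit false

namespace Pool.Agent.Helper26.HI

open MvPolynomial

noncomputable section

theorem totalDegree_det37 {r k : ℕ} (M : Matrix (Fin k) (Fin k) (MvPolynomial (Fin r) ℤ)) (B : ℕ)
    (h : ∀ i j, (M i j).totalDegree ≤ B) : M.det.totalDegree ≤ k * B := by
  rw [Matrix.det_apply]
  refine totalDegree_finsetSum_le fun σ _ => ?_
  have h1 : (∏ i, M (σ i) i).totalDegree ≤ k * B := by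
    refine (totalDegree_finsetProd _ _).trans ?_
    refine (Finset.sum_le_card_nsmul _ _ B fun i _ => h _ _).trans ?_
    simp
  rcases Int.units_eq_one_or (Equiv.Perm.sign σ) with h2 | h2
  · rw [h2, one_smul]; exact h1
  · rw [h2, Units.neg_smul, one_smul, totalDegree_neg]; exact h1

/-- The resultant of a monic irreducible polynomial and a nonzero one of smaller degree. -/
theorem resultant_ne37 {r : ℕ} {P Q : Polynomial (MvPolynomial (Fin r) ℤ)} (hPm : P.Monic)
    (hirr : Irreducible P) (hQ : Q ≠ 0) (hd : Q.natDegree < P.natDegree) :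
    Polynomial.resultant P Q P.natDegree Q.natDegree ≠ 0 := by
  intro h0
  have hinj : Function.Injective (algebraMap (MvPolynomial (Fin r) ℤ) (FractionRing (MvPolynomial (Fin r) ℤ))) :=
    IsFractionRing.injective _ _
  have hirr' := (hPm.irreducible_iff_irreducible_map_fraction_map
    (K := FractionRing (MvPolynomial (Fin r) ℤ))).1 hirr
  have hdP : (P.map (algebraMap (MvPolynomial (Fin r) ℤ) (FractionRing (MvPolynomial (Fin r) ℤ)))).natDegree =
    P.natDegree := Polynomial.natDegree_map_eq_of_injective hinj P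
  have hdQ : (Q.map (algebraMap (MvPolynomial (Fin r) ℤ) (FractionRing (MvPolynomial (Fin r) ℤ)))).natDegree =
    Q.natDegree := Polynomial.natDegree_map_eq_of_injective hinj Q
  have hQ' : Q.map (algebraMap (MvPolynomial (Fin r) ℤ) (FractionRing (MvPolynomial (Fin r) ℤ))) ≠ 0 :=
    (Polynomial.map_ne_zero_iff hinj).2 hQ
  have hco : IsCoprime (P.map (algebraMap (MvPolynomial (Fin r) ℤ) (FractionRing (MvPolynomial (Fin r) ℤ))))
      (Q.map (algebraMap (MvPolynomial (Fin r) ℤ) (FractionRing (MvPolynomial (Fin r) ℤ)))) := by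
    rw [hirr'.coprime_iff_not_dvd]
    exact Polynomial.not_dvd_of_natDegree_lt hQ' (by rw [hdP, hdQ]; exact hd)
  apply Polynomial.resultant_ne_zero _ _ hco
  rw [hdP, hdQ, Polynomial.resultant_map_map, h0, map_zero]

theorem V_bezout37 {r : ℕ} {P Q p q : Polynomial (MvPolynomial (Fin r) ℤ)} {R : MvPolynomial (Fin r) ℤ}
    (e : P * p + Q * q = Polynomial.C R) (t : Fin r → ℤ) (x : ℤ) :
    V P t x * V p t x + V Q t x * V q t x = eval t R := by
  have h1 := congrArg (fun S : Polynomial (MvPolynomial (Fin r) ℤ) => (S.map (eval t)).eval x) e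
  simpa [V, Polynomial.map_add, Polynomial.map_mul] using h1

/-- **HC4**: elimination of `x`, with a uniform bound of the degree -/
theorem elim {r : ℕ} (P : Polynomial (MvPolynomial (Fin r) ℤ)) (hPm : P.Monic) (hirr : Irreducible P) (A : ℕ) :
    ∃ δ : ℕ, ∀ Q : Polynomial (MvPolynomial (Fin r) ℤ), Q ≠ 0 → Q.natDegree < P.natDegree →
      (∀ n, (Q.coeff n).totalDegree ≤ A) → ∃ R : MvPolynomial (Fin r) ℤ, R ≠ 0 ∧ R.totalDegree ≤ δ ∧
      ∀ (t : Fin r → ℤ) (x : ℤ), V P t x = 0 → V Q t x = 0 → eval t R = 0 := by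
  obtain ⟨B, hB⟩ : ∃ B : ℕ, ∀ n, (P.coeff n).totalDegree ≤ B := by
    refine ⟨(Finset.range (P.natDegree + 1)).sup fun n => (P.coeff n).totalDegree, fun n => ?_⟩
    by_cases hn : n ≤ P.natDegree
    · exact Finset.le_sup (f := fun n => (P.coeff n).totalDegree) (Finset.mem_range.2 (by omega))
    · rw [Polynomial.coeff_eq_zero_of_natDegree_lt (by omega), totalDegree_zero]
      exact Nat.zero_le _
  refine ⟨(2 * P.natDegree) * (A + B), fun Q hQ hd hA => ?_⟩
  refine ⟨Polynomial.resultant P Q P.natDegree Q.natDegree, resultant_ne37 hPm hirr hQ hd, ?_, ?_⟩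
  · refine (totalDegree_det37 _ (A + B) fun i j => ?_).trans ?_
    · refine j.addCases (fun j₁ => ?_) (fun j₁ => ?_)
      · rw [Polynomial.sylvester, Matrix.of_apply, Fin.addCases_left]
        split_ifs
        · exact (hA _).trans (Nat.le_add_right _ _)
        · simp
      · rw [Polynomial.sylvester, Matrix.of_apply, Fin.addCases_right]
        split_ifs
        · exact (hB _).trans (Nat.le_add_left _ _)
        · simp
    · exact Nat.mul_le_mul_right _ (by omega)
  · intro t x hP hQ0
    obtain ⟨p, q, -, -, e⟩ := Polynomial.exists_mul_add_mul_eq_C_resultant P Q le_rfl le_rfl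
      (Or.inl (by omega : P.natDegree ≠ 0))
    rw [← V_bezout37 e t x, hP, hQ0, zero_mul, zero_mul, add_zero]

end

end Pool.Agent.Helper26.HI
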